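import Mathlib
import Pool.Agent.H721Z.RS.Main

set_option autoImplicit false

namespace Pool.Agent.Results.MP_209919_co.ASphereQ2

/-- Q2: a sphere of radius `ρ` in `ℝ^d` contains an infinite rational set lying in no affine
hyperplane exactly when `d ≥ 2` and `ρ ^ 2` is rational. -/
theorem result (d : ℕ) (hd : 1 ≤ d) (ρ : ℝ) (hρ : 0 < ρ) (c : EuclideanSpace ℝ (Fin d)) :
    (∃ X : Set (EuclideanSpace ℝ (Fin d)), X ⊆ Metric.sphere c ρ ∧ X.Infinite ∧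
      (∀ x ∈ X, ∀ y ∈ X, x ≠ y → ∃ r : ℚ, dist x y = (r : ℝ)) ∧
      ¬ ∃ (a : EuclideanSpace ℝ (Fin d)) (b : ℝ), a ≠ 0 ∧ ∀ x ∈ X, inner ℝ a x = b) ↔
    (2 ≤ d ∧ ∃ q : ℚ, ρ ^ 2 = (q : ℝ)) :=
  Pool.Agent.H721Z.RS.main d hd ρ hρ c

end Pool.Agent.Results.MP_209919_co.ASphereQ2
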